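import Mathlib

/-!
# The real part of `L'/L(1/2, χ)`

For a primitive Dirichlet character `χ ≠ 1` modulo `q` with `L(1/2, χ) ≠ 0` the functional equation gives
`Re L'/L(1/2, χ) = - (log q) / 2 - Re (γ'/γ)(1/2)`, where `γ` is the gamma factor of `χ`.
-/

set_option autoImplicit false

open Complex DirichletCharacter Filter Topology Set

namespace Q239.Central

set_option linter.unusedSectionVars false

variable {q : ℕ} [NeZero q]

lemma LFunction_conj (χ : DirichletCharacter ℂ q) (s : ℂ) (hs : s ≠ 1) :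
    LFunction χ⁻¹ ((starRingEnd ℂ) s) = (starRingEnd ℂ) (LFunction χ s) := by
  have hg_an : AnalyticOnNhd ℂ (fun z ↦ (starRingEnd ℂ)
      (LFunction χ⁻¹ ((starRingEnd ℂ) z))) {1}ᶜ :=
    DifferentiableOn.analyticOnNhd
      (fun z hz ↦ (differentiableAt_conj_conj_iff.mpr <|
        differentiableAt_LFunction _ _ (Or.inl <|
        (map_ne_one_iff _ (starRingEnd ℂ).injective).mpr hz)).differentiableWithinAt)
      isOpen_compl_singleton
  have hf_an : AnalyticOnNhd ℂ (LFunction χ) {1}ᶜ :=
    DifferentiableOn.analyticOnNhd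
      (fun z hz ↦ (differentiableAt_LFunction _ _
        (Or.inl hz)).differentiableWithinAt) isOpen_compl_singleton
  have hgz (z : ℂ) (hz : 1 < z.re) : (starRingEnd ℂ)
      (LFunction χ⁻¹ ((starRingEnd ℂ) z)) = LFunction χ z := by
    rw [LFunction_eq_LSeries _ (by rwa [conj_re]),
      LFunction_eq_LSeries _ hz, LSeries, LSeries, conj_tsum]
    refine tsum_congr fun n ↦ ?_
    rcases eq_or_ne n 0 with rfl | hn
    · simp
    · rw [LSeries.term_of_ne_zero hn, LSeries.term_of_ne_zero hn, map_div₀,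
        ← conj_cpow _ _ (by rw [natCast_arg]; positivity), conj_natCast,
        ← MulChar.star_apply']
      simp
  have heq : EqOn (fun z ↦ (starRingEnd ℂ)
      (LFunction χ⁻¹ ((starRingEnd ℂ) z))) (LFunction χ) {1}ᶜ :=
    hg_an.eqOn_of_preconnected_of_eventuallyEq hf_an
      (isConnected_compl_singleton_of_one_lt_rank (by simp) 1).isPreconnected
      (by norm_num : (2 : ℂ) ∈ _)
      (eventuallyEq_of_mem
        ((isOpen_lt continuous_const continuous_re).mem_nhds (by norm_num)) hgz)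
  simpa using congrArg (starRingEnd ℂ) (heq hs)

lemma half_ne_one : (1 / 2 : ℂ) ≠ 1 := by norm_num

lemma conj_half : (starRingEnd ℂ) (1 / 2 : ℂ) = 1 / 2 := by
  have := Complex.conj_ofReal (1 / 2 : ℝ)
  simpa using this

lemma deriv_LFunction_inv_half (χ : DirichletCharacter ℂ q) :
    deriv (LFunction χ⁻¹) (1 / 2) = (starRingEnd ℂ) (deriv (LFunction χ) (1 / 2)) := by
  have h1 : HasDerivAt (LFunction χ) (deriv (LFunction χ) (1 / 2)) (1 / 2) :=
    (differentiableAt_LFunction χ _ (Or.inl half_ne_one)).hasDerivAt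
  have h2 := h1.conj_conj
  have e : (starRingEnd ℂ) (1 / 2 : ℂ) = 1 / 2 := conj_half
  rw [e] at h2
  have h3 : (starRingEnd ℂ ∘ LFunction χ ∘ starRingEnd ℂ) =ᶠ[𝓝 (1 / 2 : ℂ)] LFunction χ⁻¹ := by
    have hmem : ({1}ᶜ : Set ℂ) ∈ 𝓝 (1 / 2 : ℂ) := isOpen_compl_singleton.mem_nhds half_ne_one
    filter_upwards [hmem] with z hz
    have hz' : (starRingEnd ℂ) z ≠ 1 := (map_ne_one_iff _ (starRingEnd ℂ).injective).mpr hz
    have := LFunction_conj χ _ hz'
    rw [Complex.conj_conj] at this
    simp only [Function.comp_apply]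
    rw [this]
  exact (h2.congr_of_eventuallyEq h3.symm).deriv

lemma gammaFactor_inv (χ : DirichletCharacter ℂ q) : gammaFactor χ⁻¹ = gammaFactor χ := by
  funext s
  have h : χ⁻¹.Even ↔ χ.Even := by
    have h0 : χ⁻¹ (-1) = (χ (-1))⁻¹ := by
      rw [← MulChar.star_apply', ]
      rcases χ.even_or_odd with h | h
      · rw [h]; simp
      · rw [h]; simp
    unfold DirichletCharacter.Even
    rw [h0, inv_eq_one]
  unfold gammaFactor
  by_cases h1 : χ.Even
  · rw [if_pos h1, if_pos (h.2 h1)]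
  · rw [if_neg h1, if_neg (fun h2 => h1 (h.1 h2))]

lemma gammaFactor_ne_zero (χ : DirichletCharacter ℂ q) {s : ℂ} (hs : 0 < s.re) : gammaFactor χ s ≠ 0 := by
  unfold gammaFactor
  split_ifs
  · exact Gammaℝ_ne_zero_of_re_pos hs
  · exact Gammaℝ_ne_zero_of_re_pos (by simp; linarith)

lemma differentiableAt_Gammaℝ {s : ℂ} (hs : 0 < s.re) : DifferentiableAt ℂ Gammaℝ s := by
  have h : DifferentiableAt ℂ (fun z => (Gammaℝ z)⁻¹) s := differentiable_Gammaℝ_inv s
  have h2 : DifferentiableAt ℂ (fun z => ((Gammaℝ z)⁻¹)⁻¹) s :=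
    h.inv (inv_ne_zero (Gammaℝ_ne_zero_of_re_pos hs))
  simpa using h2

lemma differentiableAt_gammaFactor (χ : DirichletCharacter ℂ q) {s : ℂ} (hs : 0 < s.re) :
    DifferentiableAt ℂ (gammaFactor χ) s := by
  have : gammaFactor χ = Gammaℝ ∨ gammaFactor χ = fun s => Gammaℝ (s + 1) := by
    by_cases h1 : χ.Even
    · left; funext z; unfold gammaFactor; rw [if_pos h1]
    · right; funext z; unfold gammaFactor; rw [if_neg h1]
  rcases this with h | h
  · rw [h]; exact differentiableAt_Gammaℝ hs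
  · rw [h]
    have h2 : DifferentiableAt ℂ Gammaℝ (s + 1) := differentiableAt_Gammaℝ (by simp; linarith)
    exact h2.comp s (differentiableAt_id.add_const 1)

/-- the constant bounding the contribution of the gamma factor -/
noncomputable def C0 : ℝ := ‖logDeriv Gammaℝ (1 / 2)‖ + ‖logDeriv (fun s => Gammaℝ (s + 1)) (1 / 2)‖

lemma norm_logDeriv_gammaFactor (χ : DirichletCharacter ℂ q) :
    ‖logDeriv (gammaFactor χ) (1 / 2)‖ ≤ C0 := by
  have : gammaFactor χ = Gammaℝ ∨ gammaFactor χ = fun s => Gammaℝ (s + 1) := by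
    by_cases h1 : χ.Even
    · left; funext z; unfold gammaFactor; rw [if_pos h1]
    · right; funext z; unfold gammaFactor; rw [if_neg h1]
  unfold C0
  rcases this with h | h
  · rw [h]; linarith [norm_nonneg (logDeriv (fun s => Gammaℝ (s + 1)) (1 / 2))]
  · rw [h]; linarith [norm_nonneg (logDeriv Gammaℝ (1 / 2))]

lemma logDeriv_completed (χ : DirichletCharacter ℂ q) (hq : q ≠ 1) (hL : LFunction χ (1 / 2) ≠ 0) :
    logDeriv (completedLFunction χ) (1 / 2) =
      logDeriv (gammaFactor χ) (1 / 2) + deriv (LFunction χ) (1 / 2) / LFunction χ (1 / 2) := by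
  have hev : completedLFunction χ =ᶠ[𝓝 (1 / 2 : ℂ)] fun z => gammaFactor χ z * LFunction χ z := by
    have hmem : {z : ℂ | 0 < z.re} ∈ 𝓝 (1 / 2 : ℂ) :=
      (isOpen_lt continuous_const continuous_re).mem_nhds (by norm_num)
    filter_upwards [hmem] with z hz
    have hz' : gammaFactor χ z ≠ 0 := gammaFactor_ne_zero χ hz
    rw [LFunction_eq_completed_div_gammaFactor χ z (Or.inr hq)]
    field_simp
  have hre : 0 < (1 / 2 : ℂ).re := by norm_num
  rw [logDeriv_apply, hev.deriv_eq, hev.eq_of_nhds, ← logDeriv_apply]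
  rw [logDeriv_mul (1 / 2 : ℂ) (gammaFactor_ne_zero χ hre) hL (differentiableAt_gammaFactor χ hre)
    (differentiableAt_LFunction χ _ (Or.inl half_ne_one))]
  rw [logDeriv_apply (f := LFunction χ)]

/-- The functional equation at the central point. -/
theorem re_logDeriv_half (χ : DirichletCharacter ℂ q) (hq : q ≠ 1) (hχ : χ.IsPrimitive) (h1 : χ ≠ 1)
    (hL : LFunction χ (1 / 2) ≠ 0) :
    (deriv (LFunction χ) (1 / 2) / LFunction χ (1 / 2)).re =
      -(Real.log q / 2) - (logDeriv (gammaFactor χ) (1 / 2)).re := by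
  have h2 : χ⁻¹ ≠ 1 := inv_ne_one.2 h1
  have hL2 : LFunction χ⁻¹ (1 / 2) = (starRingEnd ℂ) (LFunction χ (1 / 2)) := by
    have := LFunction_conj χ (1 / 2) half_ne_one
    rwa [conj_half] at this
  have hL2' : LFunction χ⁻¹ (1 / 2) ≠ 0 := by
    rw [hL2]; exact (map_ne_zero _).2 hL
  have e1 := logDeriv_completed χ hq hL
  have e2 := logDeriv_completed χ⁻¹ hq hL2'
  rw [gammaFactor_inv, deriv_LFunction_inv_half, hL2, ← map_div₀] at e2
  -- values
  have hN : (q : ℂ) ≠ 0 := by exact_mod_cast NeZero.ne q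
  have hre : 0 < (1 / 2 : ℂ).re := by norm_num
  have hF : completedLFunction χ (1 / 2) ≠ 0 := by
    have := LFunction_eq_completed_div_gammaFactor χ (1 / 2) (Or.inr hq)
    intro h0
    rw [h0, zero_div] at this
    exact hL this
  have hF2 : completedLFunction χ⁻¹ (1 / 2) ≠ 0 := by
    have := LFunction_eq_completed_div_gammaFactor χ⁻¹ (1 / 2) (Or.inr hq)
    intro h0
    rw [h0, zero_div] at this
    exact hL2' this
  have hfe : ∀ s : ℂ, completedLFunction χ (1 - s) =
      (q : ℂ) ^ (s - 1 / 2) * rootNumber χ * completedLFunction χ⁻¹ s :=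
    fun s => IsPrimitive.completedLFunction_one_sub hχ s
  have hv := hfe (1 / 2)
  rw [show (1 : ℂ) - 1 / 2 = 1 / 2 by norm_num, sub_self, cpow_zero, one_mul] at hv
  have hw : rootNumber χ ≠ 0 := by
    intro h0
    rw [h0, zero_mul] at hv
    exact hF hv
  -- derivatives
  have hd1 : HasDerivAt (fun s : ℂ => completedLFunction χ (1 - s))
      (-(deriv (completedLFunction χ) (1 / 2))) (1 / 2) := by
    have h := (differentiable_completedLFunction h1 (1 - 1 / 2)).hasDerivAt
    have h' : HasDerivAt (fun s : ℂ => 1 - s) (-1) (1 / 2) := by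
      simpa using (hasDerivAt_id (1 / 2 : ℂ)).const_sub 1
    have h3 := HasDerivAt.comp (1 / 2 : ℂ) h h'
    rw [show (1 : ℂ) - 1 / 2 = 1 / 2 by norm_num, mul_neg_one] at h3
    exact h3
  have hd2 : HasDerivAt (fun s : ℂ => (q : ℂ) ^ (s - 1 / 2) * rootNumber χ * completedLFunction χ⁻¹ s)
      (Complex.log q * rootNumber χ * completedLFunction χ⁻¹ (1 / 2) +
        rootNumber χ * deriv (completedLFunction χ⁻¹) (1 / 2)) (1 / 2) := by
    have h := (differentiable_completedLFunction h2 (1 / 2)).hasDerivAt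
    have h3 : HasDerivAt (fun s : ℂ => (q : ℂ) ^ (s - 1 / 2)) (Complex.log q) (1 / 2) := by
      have h4 : HasDerivAt (fun s : ℂ => s - 1 / 2) 1 (1 / 2) := (hasDerivAt_id _).sub_const _
      have h5 := h4.const_cpow (c := (q : ℂ)) (Or.inl hN)
      simpa using h5
    have h6 := (h3.mul_const (rootNumber χ)).mul h
    rw [sub_self, cpow_zero, one_mul] at h6
    exact h6
  have hd3 : HasDerivAt (fun s : ℂ => completedLFunction χ (1 - s))
      (Complex.log q * rootNumber χ * completedLFunction χ⁻¹ (1 / 2) +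
        rootNumber χ * deriv (completedLFunction χ⁻¹) (1 / 2)) (1 / 2) := by
    have : (fun s : ℂ => completedLFunction χ (1 - s)) =
        fun s : ℂ => (q : ℂ) ^ (s - 1 / 2) * rootNumber χ * completedLFunction χ⁻¹ s := funext hfe
    rw [this]; exact hd2
  have hkey := hd1.unique hd3
  have hlog : -(logDeriv (completedLFunction χ) (1 / 2)) =
      Complex.log q + logDeriv (completedLFunction χ⁻¹) (1 / 2) := by
    rw [logDeriv_apply, logDeriv_apply, hv]
    rw [← neg_div, hkey]
    field_simp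
  rw [e1, e2] at hlog
  have hre2 := congrArg Complex.re hlog
  have hlogre : (Complex.log q).re = Real.log q := by
    rw [Complex.log_re]
    simp
  simp only [neg_re, add_re, Complex.conj_re, hlogre] at hre2
  linarith

/-- primitive for prime moduli -/
lemma isPrimitive_of_prime (hq : q.Prime) {χ : DirichletCharacter ℂ q} (h1 : χ ≠ 1) : χ.IsPrimitive := by
  have hd := conductor_dvd_level χ
  rcases (Nat.dvd_prime hq).1 hd with h | h
  · exact absurd ((eq_one_iff_conductor_eq_one).2 h) h1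
  · exact h

/-- For all primes `q` with `log q > 2 C0` the real part is negative. -/
theorem re_logDeriv_neg (hq : q.Prime) (hlog : 2 * C0 < Real.log q) (χ : DirichletCharacter ℂ q) (h1 : χ ≠ 1)
    (hL : LFunction χ (1 / 2) ≠ 0) :
    (deriv (LFunction χ) (1 / 2) / LFunction χ (1 / 2)).re < 0 := by
  rw [re_logDeriv_half χ hq.one_lt.ne' (isPrimitive_of_prime hq h1) h1 hL]
  have h := norm_logDeriv_gammaFactor χ
  have h2 := Complex.abs_re_le_norm (logDeriv (gammaFactor χ) (1 / 2))
  have h3 := neg_abs_le (logDeriv (gammaFactor χ) (1 / 2)).re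
  linarith

end Q239.Central
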